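import Pool.Agent.Mg.Fdcfa1bb.G83681d

set_option autoImplicit false

namespace Pool.Agent.Results.MP_dcfa1b_co.DenseDegree

open Pool.Agent.MP_dcfa1b_co.Sq

/-- A permutation array of order `n` with the shift property (S), `n + 2` a prime power, whose dots
are the `(i, j)` with `φ(a^i) = b^j`, for elements `a, b` of order `n + 1` in any field and a
polynomial `φ` of degree `d` with `2 d + 1 < n` some power `φ ^ k` of which, with `k d + 1 < n`,
has no vanishing coefficient strictly between the ends, is a Golomb array. -/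
theorem result :
    ∀ (n : ℕ) (f : Equiv.Perm (Fin n)),
      (∀ s t : ℕ, ∀ i j k l : Fin n, i ≠ j → k ≠ l →
        (((((i : ℕ) + 1 + s) % (n + 1) : ℕ) : ℤ) - ((((j : ℕ) + 1 + s) % (n + 1) : ℕ) : ℤ)
            = ((((k : ℕ) + 1 + s) % (n + 1) : ℕ) : ℤ) - ((((l : ℕ) + 1 + s) % (n + 1) : ℕ) : ℤ) ∧
         ((((f i : ℕ) + 1 + t) % (n + 1) : ℕ) : ℤ) - ((((f j : ℕ) + 1 + t) % (n + 1) : ℕ) : ℤ)
            = ((((f k : ℕ) + 1 + t) % (n + 1) : ℕ) : ℤ) - ((((f l : ℕ) + 1 + t) % (n + 1) : ℕ) : ℤ)) →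
        i = k ∧ j = l) →
      IsPrimePow (n + 2) →
      ∀ (E : Type) [Field E] (a b : E), orderOf a = n + 1 → orderOf b = n + 1 →
      ∀ φ : Polynomial E, 2 * φ.natDegree + 1 < n →
        (∀ i : Fin n, φ.eval (a ^ ((i : ℕ) + 1)) = b ^ ((f i : ℕ) + 1)) →
      ∀ k : ℕ, 0 < k → k * φ.natDegree + 1 < n →
        (∀ j : ℕ, 0 < j → j < k * φ.natDegree → (φ ^ k).coeff j ≠ 0) →
      ∃ (F : Type) (_ : Field F) (_ : Fintype F), Fintype.card F = n + 2 ∧
        ∃ α β : F, orderOf α = n + 1 ∧ orderOf β = n + 1 ∧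
          ∀ i : Fin n, α ^ ((i : ℕ) + 1) + β ^ ((f i : ℕ) + 1) = 1 := by
  intro n f hS hq E _ a b ha hb φ hd hφ k hk hkd hc
  classical
  exact golomb_dense n f hq a b ha hb φ hd hφ (sd_of_shift n f hS a b ha hb _ hφ) k hk hkd hc

end Pool.Agent.Results.MP_dcfa1b_co.DenseDegree
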