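import Pool.Agent.Mg.Fc6d393p.G883141

set_option autoImplicit false

namespace Pool.Agent.Results.MP_dcfa1b_co.PrimePowerOrders

open Pool.Agent.MP_dcfa1b_co.Pp

/-- For every `ε > 0` and all large `x`, at most `x / (log x) ^ (2 - ε)` orders `n ≤ x` with `n + 2`
not a prime power carry a permutation array with the shift property (S) in which, for some slope
`d` coprime to `n + 1`, fewer than `(n - 1) / 4` ordered pairs of dots differ by a vector of slope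
`d` modulo `n + 1`. -/
theorem result :
    ∀ ε : ℝ, 0 < ε → ∃ x₀ : ℕ, ∀ x : ℕ, x₀ ≤ x →
      (Set.ncard {n : ℕ | n ≤ x ∧ ¬ IsPrimePow (n + 2) ∧ ∃ f : Equiv.Perm (Fin n),
        (∀ s t : ℕ, ∀ i j k m : Fin n, i ≠ j → k ≠ m →
          (((((i : ℕ) + 1 + s) % (n + 1) : ℕ) : ℤ) - ((((j : ℕ) + 1 + s) % (n + 1) : ℕ) : ℤ)
              = ((((k : ℕ) + 1 + s) % (n + 1) : ℕ) : ℤ) - ((((m : ℕ) + 1 + s) % (n + 1) : ℕ) : ℤ) ∧
           ((((f i : ℕ) + 1 + t) % (n + 1) : ℕ) : ℤ) - ((((f j : ℕ) + 1 + t) % (n + 1) : ℕ) : ℤ)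
              = ((((f k : ℕ) + 1 + t) % (n + 1) : ℕ) : ℤ) -
                ((((f m : ℕ) + 1 + t) % (n + 1) : ℕ) : ℤ)) →
          i = k ∧ j = m) ∧
        ∃ d : ℕ, Nat.Coprime d (n + 1) ∧
          4 * Set.ncard {p : Fin n × Fin n | p.1 ≠ p.2 ∧
            ((f p.1 : ℕ) : ℤ) - ((f p.2 : ℕ) : ℤ) ≡
              (d : ℤ) * (((p.1 : ℕ) : ℤ) - ((p.2 : ℕ) : ℤ)) [ZMOD ((n : ℤ) + 1)]} + 1 < n} : ℝ) ≤
        (x : ℝ) / Real.log x ^ (2 - ε) := by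
  intro ε hε
  refine count (fun n => ∃ f : Equiv.Perm (Fin n), Sh n f ∧ ∃ d : ℕ, Nat.Coprime d (n + 1) ∧
    4 * (Pd n f d).ncard + 1 < n) ?_ ε hε
  rintro n ⟨f, hS, d, hd, h⟩
  exact good n f hS d hd ((gap n f hS d hd).resolve_right (by omega))

end Pool.Agent.Results.MP_dcfa1b_co.PrimePowerOrders
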