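import Pool.Agent.Mg.Fdcfa1ba.Ge398f1

set_option autoImplicit false

namespace Pool.Agent.Results.MP_dcfa1b_co.SafePrime

open Pool.Agent.MP_dcfa1b_co.Sp

/-- Let `l ≥ 5` and `p = 2 l + 1` be primes such that for every even `k` with `2 ≤ k ≤ l - 3` the
product of the `(1 - 4 ^ a) ^ (a ^ k)`, `1 ≤ a < l`, is not `± 1` modulo `p`. A permutation array
of order `p - 2` with the shift property (S) which satisfies `f (a) - f (-a) ≡ d a (mod l)` for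
some `d` is a Golomb array. -/
theorem result :
    ∀ l : ℕ, 5 ≤ l → l.Prime → (2 * l + 1).Prime →
      (∀ k : ℕ, Even k → 2 ≤ k → k + 3 ≤ l →
        (∏ a ∈ Finset.Ico 1 l, (1 - (4 : ZMod (2 * l + 1)) ^ a) ^ (a ^ k)) ^ 2 ≠ 1) →
    ∀ (n : ℕ) (f : Equiv.Perm (Fin n)), n + 1 = 2 * l →
      (∀ s t : ℕ, ∀ i j k m : Fin n, i ≠ j → k ≠ m →
        (((((i : ℕ) + 1 + s) % (n + 1) : ℕ) : ℤ) - ((((j : ℕ) + 1 + s) % (n + 1) : ℕ) : ℤ)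
            = ((((k : ℕ) + 1 + s) % (n + 1) : ℕ) : ℤ) - ((((m : ℕ) + 1 + s) % (n + 1) : ℕ) : ℤ) ∧
         ((((f i : ℕ) + 1 + t) % (n + 1) : ℕ) : ℤ) - ((((f j : ℕ) + 1 + t) % (n + 1) : ℕ) : ℤ)
            = ((((f k : ℕ) + 1 + t) % (n + 1) : ℕ) : ℤ) - ((((f m : ℕ) + 1 + t) % (n + 1) : ℕ) : ℤ)) →
        i = k ∧ j = m) →
      (∃ d : ℤ, ∀ i : Fin n,
        ((f i : ℕ) : ℤ) - ((f (Fin.rev i) : ℕ) : ℤ) ≡ d * (((i : ℕ) : ℤ) + 1) [ZMOD l]) →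
      ∃ (F : Type) (_ : Field F) (_ : Fintype F), Fintype.card F = n + 2 ∧
        ∃ α β : F, orderOf α = n + 1 ∧ orderOf β = n + 1 ∧
          ∀ i : Fin n, α ^ ((i : ℕ) + 1) + β ^ ((f i : ℕ) + 1) = 1 := by
  intro l hl hlp hp hR n f hn hS hH
  exact safePrime_or l hl hlp hp hR n f hn hS (Or.inr hH)

end Pool.Agent.Results.MP_dcfa1b_co.SafePrime
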