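import Pool.Agent.Mg.Fdcfa1bb.G436428

set_option autoImplicit false

namespace Pool.Agent.Results.MP_dcfa1b_co.SqrtDegree

open Pool.Agent.MP_dcfa1b_co.Sq

/-- A permutation array of order `n` with the shift property (S) whose dots are the `(i, j)` with
`φ(α^i) = β^j`, for elements `α, β` of order `n + 1` in any field and a polynomial `φ` over that
field of degree `d` with `d^2 + 2 < n`, is a Golomb array. -/
theorem result :
    ∀ (n : ℕ) (f : Equiv.Perm (Fin n)),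
      (∀ s t : ℕ, ∀ i j k l : Fin n, i ≠ j → k ≠ l →
        (((((i : ℕ) + 1 + s) % (n + 1) : ℕ) : ℤ) - ((((j : ℕ) + 1 + s) % (n + 1) : ℕ) : ℤ)
            = ((((k : ℕ) + 1 + s) % (n + 1) : ℕ) : ℤ) - ((((l : ℕ) + 1 + s) % (n + 1) : ℕ) : ℤ) ∧
         ((((f i : ℕ) + 1 + t) % (n + 1) : ℕ) : ℤ) - ((((f j : ℕ) + 1 + t) % (n + 1) : ℕ) : ℤ)
            = ((((f k : ℕ) + 1 + t) % (n + 1) : ℕ) : ℤ) - ((((f l : ℕ) + 1 + t) % (n + 1) : ℕ) : ℤ)) →
        i = k ∧ j = l) →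
      ∀ (E : Type) [Field E] (a b : E), orderOf a = n + 1 → orderOf b = n + 1 →
      ∀ φ : Polynomial E, φ.natDegree ^ 2 + 2 < n →
        (∀ i : Fin n, φ.eval (a ^ ((i : ℕ) + 1)) = b ^ ((f i : ℕ) + 1)) →
      ∃ (F : Type) (_ : Field F) (_ : Fintype F), Fintype.card F = n + 2 ∧
        ∃ α β : F, orderOf α = n + 1 ∧ orderOf β = n + 1 ∧
          ∀ i : Fin n, α ^ ((i : ℕ) + 1) + β ^ ((f i : ℕ) + 1) = 1 := by
  intro n f hS E _ a b ha hb φ hd hφ
  classical
  let ι := algebraMap E (AlgebraicClosure E)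
  have ha' : orderOf (ι a) = n + 1 := by
    rw [← ha]; exact orderOf_injective ι.toMonoidHom ι.injective a
  have hb' : orderOf (ι b) = n + 1 := by
    rw [← hb]; exact orderOf_injective ι.toMonoidHom ι.injective b
  have hφ' : ∀ i : Fin n, (φ.map ι).eval (ι a ^ ((i : ℕ) + 1)) = ι b ^ ((f i : ℕ) + 1) := by
    intro i
    rw [← map_pow, ← map_pow, Polynomial.eval_map, Polynomial.eval₂_at_apply, hφ]
  exact golomb_closed n f (ι a) (ι b) ha' hb' (φ.map ι)
    (by rw [Polynomial.natDegree_map]; exact hd) hφ'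
    (sd_of_shift n f hS (ι a) (ι b) ha' hb' _ hφ')

end Pool.Agent.Results.MP_dcfa1b_co.SqrtDegree
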